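import Pool.Agent.Helper92.CP.FM

/-!
# CP, part CL: paths whose last vertex has no cheap edge to a new vertex of `Cn`
-/

set_option autoImplicit false

open MeasureTheory ProbabilityTheory Filter Topology
open scoped ENNReal

namespace Pool.Agent.Helper92.CP

open Pool.Agent.Helper20.CP

/-- The vertices of the path with the half-edges `g i`. -/
noncomputable def pv {X V : Type} (vt : X → V) (u : V) {k : ℕ} (g : Fin k → X) : ℕ → V
  | 0 => u
  | i + 1 => if hi : i < k then vt (g ⟨i, hi⟩) else u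

lemma pv_eq {X V : Type} (vt : X → V) (u : V) {k : ℕ} (g : Fin k → X) (π : ℕ → V) (h0 : π 0 = u)
    (h1 : ∀ i : Fin k, vt (g i) = π (i + 1)) : ∀ i ≤ k, pv vt u g i = π i := by
  intro i hi
  cases i with
  | zero => exact h0.symm
  | succ i =>
    have hi' : i < k := hi
    show (if hi : i < k then vt (g ⟨i, hi⟩) else u) = π (i + 1)
    rw [dif_pos hi', h1]

lemma pv_succ {X V : Type} (vt : X → V) (u : V) {k : ℕ} (g : Fin k → X) (i : Fin k) :
    pv vt u g (i + 1) = vt (g i) := by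
  show (if hi : (i : ℕ) < k then vt (g ⟨i, hi⟩) else u) = vt (g i)
  rw [dif_pos i.2]

open Classical in
/-- The families. -/
noncomputable def Fam {X V : Type} [Fintype X] (vt : X → V) (u : V) (k : ℕ) (C : ℕ → Finset V) :
    Finset ((Fin k → X) × (Fin k → X)) :=
  Finset.univ.filter fun p => DJ p.1 p.2 ∧ (∀ i : Fin k, vt (p.1 i) = pv vt u p.2 i) ∧
    (∀ i ≤ k, pv vt u p.2 i ∈ C i) ∧ ∀ i ≤ k, ∀ j ≤ k, pv vt u p.2 i = pv vt u p.2 j → i = j

lemma mem_fam {X V : Type} [Fintype X] (vt : X → V) (u : V) (k : ℕ) (C : ℕ → Finset V)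
    (p : (Fin k → X) × (Fin k → X)) : p ∈ Fam vt u k C ↔ (DJ p.1 p.2 ∧
      (∀ i : Fin k, vt (p.1 i) = pv vt u p.2 i) ∧
      (∀ i ≤ k, pv vt u p.2 i ∈ C i) ∧ ∀ i ≤ k, ∀ j ≤ k, pv vt u p.2 i = pv vt u p.2 j → i = j) := by
  classical
  unfold Fam
  constructor
  · intro h
    exact (Finset.mem_filter.1 h).2
  · intro h
    exact Finset.mem_filter.2 ⟨Finset.mem_univ _, h⟩

lemma card_fam {X V : Type} [Fintype X] (vt : X → V) (u : V) (k : ℕ) (C : ℕ → Finset V) (hi : ℕ → ℝ)
    (h1 : ∀ i < k, ∀ v ∈ C i, (dg vt v : ℝ) ≤ hi i) (h2 : ∀ i < k, 0 ≤ hi i) :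
    ((Fam vt u k C).card : ℝ) ≤ ∏ r ∈ Finset.range k, (hi r * Fintype.card X) := by
  classical
  have hmaps : Set.MapsTo (Prod.snd : (Fin k → X) × (Fin k → X) → (Fin k → X)) (Fam vt u k C : Set _)
      ((Finset.univ : Finset (Fin k → X)) : Set (Fin k → X)) := fun q _ => Finset.mem_coe.2 (Finset.mem_univ _)
  rw [Finset.card_eq_sum_card_fiberwise hmaps]
  push_cast
  have h3 : ∀ g ∈ (Finset.univ : Finset (Fin k → X)),
      (((Fam vt u k C).filter fun p => p.2 = g).card : ℝ) ≤ ∏ r ∈ Finset.range k, hi r := by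
    intro g _
    rcases Finset.eq_empty_or_nonempty ((Fam vt u k C).filter fun p => p.2 = g) with h4 | ⟨q, hq⟩
    · rw [h4]
      simp only [Finset.card_empty, Nat.cast_zero]
      exact Finset.prod_nonneg fun r hr => h2 r (Finset.mem_range.1 hr)
    · obtain ⟨hq1, hq2⟩ := Finset.mem_filter.1 hq
      have hC := ((mem_fam _ _ _ _ _).1 hq1).2.2.1
      rw [hq2] at hC
      have h5 : ((Fam vt u k C).filter fun p => p.2 = g).card ≤
          (Fintype.piFinset fun i : Fin k => Finset.univ.filter fun x => vt x = pv vt u g i).card := by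
        refine Finset.card_le_card_of_injOn (fun p => p.1) ?_ ?_
        · intro p hp
          obtain ⟨hp1, hp2⟩ := Finset.mem_filter.1 (Finset.mem_coe.1 hp)
          have := ((mem_fam _ _ _ _ _).1 hp1).2.1
          rw [hp2] at this
          rw [Finset.mem_coe, Fintype.mem_piFinset]
          intro i
          exact Finset.mem_filter.2 ⟨Finset.mem_univ _, this i⟩
        · intro p hp p' hp' hpp
          obtain ⟨-, hp2⟩ := Finset.mem_filter.1 (Finset.mem_coe.1 hp)
          obtain ⟨-, hp2'⟩ := Finset.mem_filter.1 (Finset.mem_coe.1 hp')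
          exact Prod.ext hpp (hp2.trans hp2'.symm)
      rw [Fintype.card_piFinset] at h5
      calc (((Fam vt u k C).filter fun p => p.2 = g).card : ℝ)
          ≤ ((∏ i : Fin k, (Finset.univ.filter fun x => vt x = pv vt u g i).card : ℕ) : ℝ) := by
            exact_mod_cast h5
        _ = ∏ i : Fin k, (dg vt (pv vt u g i) : ℝ) := by push_cast; rfl
        _ ≤ ∏ i : Fin k, hi i := Finset.prod_le_prod (fun _ _ => Nat.cast_nonneg _)
            fun i _ => h1 i i.2 _ (hC i i.2.le)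
        _ = ∏ r ∈ Finset.range k, hi r := (Finset.prod_range _).symm
  calc (∑ g : Fin k → X, (((Fam vt u k C).filter fun p => p.2 = g).card : ℝ))
      ≤ ∑ g : Fin k → X, ∏ r ∈ Finset.range k, hi r := Finset.sum_le_sum h3
    _ = ∏ r ∈ Finset.range k, (hi r * Fintype.card X) := by
        rw [Finset.sum_const, Finset.prod_mul_distrib, Finset.prod_const, nsmul_eq_mul,
          Finset.card_univ, Fintype.card_fun, Fintype.card_fin, Finset.card_range]
        push_cast; ring

/-- The sets `A`, `T` of a family. -/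
lemma exists_sets {X V : Type} [Fintype X] [DecidableEq X] [DecidableEq V] (vt : X → V) (u : V)
    (k m t : ℕ) (C : ℕ → Finset V) (Cn : Finset V)
    (hm : ∀ v ∈ C k, m + 1 ≤ dg vt v)
    (ht : ∀ U : Finset V, U.card ≤ k + 1 → t ≤ ∑ v ∈ Cn \ U, dg vt v)
    (p : (Fin k → X) × (Fin k → X)) (hp : p ∈ Fam vt u k C) :
    ∃ A T : Finset X, A.card = m ∧ t ≤ T.card ∧ Disjoint A T ∧
      (∀ i, p.1 i ∉ A ∧ p.1 i ∉ T ∧ p.2 i ∉ A ∧ p.2 i ∉ T) ∧
      (∀ x ∈ A, vt x = pv vt u p.2 k) ∧
      ∀ x ∈ T, vt x ∈ Cn ∧ ∀ i ≤ k, vt x ≠ pv vt u p.2 i := by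
  classical
  obtain ⟨hd, hh, hC, hinj⟩ := (mem_fam _ _ _ _ _).1 hp
  set U : Finset V := (Finset.range (k + 1)).image (pv vt u p.2) with hU
  have hUc : U.card ≤ k + 1 := by
    rw [hU]; exact (Finset.card_image_le).trans (by simp)
  have hUm : ∀ i ≤ k, pv vt u p.2 i ∈ U := fun i hi =>
    Finset.mem_image.2 ⟨i, Finset.mem_range.2 (by omega), rfl⟩
  have hUn : ∀ v, v ∉ U → ∀ i ≤ k, v ≠ pv vt u p.2 i := by
    rintro v hv i hi rfl
    exact hv (hUm i hi)
  have hdg := hm _ (hC k le_rfl)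
  -- `B`
  set B : Finset X := (Finset.univ.filter fun x => vt x = pv vt u p.2 k).filter (fun x => ∀ i, x ≠ p.2 i)
    with hB
  have hBc : m ≤ B.card := by
    have hf : m + 1 ≤ (Finset.univ.filter fun x => vt x = pv vt u p.2 k).card := by
      have : dg vt (pv vt u p.2 k) = (Finset.univ.filter fun x => vt x = pv vt u p.2 k).card := by
        unfold dg; congr
      omega
    rcases Nat.eq_zero_or_pos k with h0 | h0
    · have : B = (Finset.univ.filter fun x => vt x = pv vt u p.2 k) := by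
        rw [hB]
        refine Finset.filter_true_of_mem fun x _ i => ?_
        exact absurd i.2 (by omega)
      rw [this]; omega
    · have hsub : (Finset.univ.filter fun x => vt x = pv vt u p.2 k).erase (p.2 ⟨k - 1, by omega⟩) ⊆ B := by
        intro x hx
        obtain ⟨hx1, hx2⟩ := Finset.mem_erase.1 hx
        rw [hB, Finset.mem_filter]
        refine ⟨hx2, ?_⟩
        rintro i rfl
        have e1 := (Finset.mem_filter.1 hx2).2
        rw [← pv_succ vt u p.2 i] at e1
        have e2 := hinj _ i.2 _ le_rfl e1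
        apply hx1
        have e3 : i = (⟨k - 1, by omega⟩ : Fin k) := Fin.ext (show (i : ℕ) = k - 1 by omega)
        rw [← e3]
      have h1 := Finset.card_le_card hsub
      have h2 := Finset.pred_card_le_card_erase (s := Finset.univ.filter fun x => vt x = pv vt u p.2 k)
        (a := p.2 ⟨k - 1, by omega⟩)
      omega
  obtain ⟨A, hAB, hA⟩ := Finset.exists_subset_card_eq hBc
  have hAv : ∀ x ∈ A, vt x = pv vt u p.2 k := fun x hx =>
    (Finset.mem_filter.1 (Finset.mem_filter.1 (hAB hx)).1).2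
  have hTm : ∀ x ∈ Finset.univ.filter (fun x => vt x ∈ Cn \ U), vt x ∈ Cn ∧ ∀ i ≤ k, vt x ≠ pv vt u p.2 i := by
    intro x hx
    have := Finset.mem_sdiff.1 (Finset.mem_filter.1 hx).2
    exact ⟨this.1, hUn _ this.2⟩
  refine ⟨A, Finset.univ.filter fun x => vt x ∈ Cn \ U, hA, ?_, ?_, ?_, hAv, hTm⟩
  · have h1 := card_last vt (Cn \ U)
    have h2 := ht U hUc
    have h3 : (Finset.univ.filter fun x => vt x ∈ Cn \ U).card = ∑ v ∈ Cn \ U, dg vt v := by
      rw [← h1]; congr
    omega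
  · rw [Finset.disjoint_left]
    intro x hx hx'
    exact (hTm x hx').2 k le_rfl (hAv x hx)
  · intro i
    refine ⟨?_, ?_, ?_, ?_⟩
    · intro hx
      have e1 := hAv _ hx
      rw [hh i] at e1
      have := hinj _ i.2.le _ le_rfl e1
      omega
    · intro hx
      exact (hTm _ hx).2 i i.2.le (hh i)
    · intro hx
      exact (Finset.mem_filter.1 (hAB hx)).2 i rfl
    · intro hx
      exact (hTm _ hx).2 (i + 1) i.2 (pv_succ vt u p.2 i).symm

theorem mainCL (hM4 : S_M4) : S_CL := by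
  intro X V _ _ _ vt ρ _ Ch hCh p hp0 hp1 hp u k m t C Cn hi hk hdeg hhi hu hm ht hmt
  classical
  refine avg_le _ _ ?_
  have hsets := exists_sets vt u k m t C Cn hm ht
  choose! A T hA hT hAT hav hAv hTv using hsets
  set E : ℝ := Real.exp (-(p * m * t / (4 * Fintype.card X))) with hE
  set P : ℝ := ∏ r ∈ Finset.range k, ((Fintype.card X : ℝ) - 2 * r - 1) with hP
  have hX : (0 : ℝ) < Fintype.card X := by
    have : 0 < Fintype.card X := by omega
    exact_mod_cast this
  have hpos : 0 < P := by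
    refine Finset.prod_pos fun r hr => ?_
    have h2 : r < k := Finset.mem_range.1 hr
    have h3 : 2 * r + 1 < Fintype.card X := by omega
    have h4 : (2 * r + 1 : ℝ) < Fintype.card X := by exact_mod_cast h3
    linarith
  -- pointwise
  have h1 : ∀ σ ∈ pairings X, WM ρ {w | ∃ π : ℕ → V, π 0 = u ∧ Pth vt σ k π ∧
      (∀ i ≤ k, π i ∈ C i) ∧ ∀ x, vt x = π k → vt (σ x) ∈ Cn → (∀ i ≤ k, vt (σ x) ≠ π i) →
        w s(x, σ x) ∉ Ch} ≤ ∑ q ∈ Fam vt u k C, if ∀ i, σ (q.1 i) = q.2 i then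
          WM ρ {w | ∀ x ∈ A q, σ x ∈ T q → w s(x, σ x) ∉ Ch} else 0 := by
    intro σ hσ
    rw [← Finset.sum_filter]
    refine le_trans (measure_mono ?_) (measure_biUnion_finset_le _ _)
    rintro w ⟨π, hπ0, hπ, hπC, hw⟩
    obtain ⟨h, hd, hh, hg⟩ := pth_halfedges vt σ hσ _ π hπ
    have hpv := pv_eq vt u (fun i => σ (h i)) π hπ0 hg
    have hmem : ((h, fun i => σ (h i)) : (Fin k → X) × (Fin k → X)) ∈ Fam vt u k C := by
      rw [mem_fam]
      refine ⟨hd, ?_, ?_, ?_⟩
      · intro i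
        rw [hh i, hpv i i.2.le]
      · intro i hi'
        rw [hpv i hi']
        exact hπC i hi'
      · intro i hi' j hj' hij
        rw [hpv i hi', hpv j hj'] at hij
        exact hπ.2 i hi' j hj' hij
    simp only [Set.mem_iUnion, Finset.mem_filter, exists_prop]
    refine ⟨(h, fun i => σ (h i)), ⟨hmem, fun i => rfl⟩, ?_⟩
    intro x hx hx'
    have e1 := hAv _ hmem x hx
    have e2 := hTv _ hmem _ hx'
    refine hw x (e1.trans (hpv k le_rfl)) e2.1 fun i hi' => ?_
    rw [← hpv i hi']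
    exact e2.2 i hi'
  -- the sum over the pairings for one family
  have h2 : ∀ q ∈ Fam vt u k C, (∑ σ ∈ pairings X, if ∀ i, σ (q.1 i) = q.2 i then
      WM ρ {w | ∀ x ∈ A q, σ x ∈ T q → w s(x, σ x) ∉ Ch} else 0) ≤
        (pairings X).card * ENNReal.ofReal (P⁻¹ * E) := by
    intro q hq
    rw [← Finset.sum_filter]
    have hcA : (A q).card = m := hA q hq
    have hcT : t ≤ (T q).card := hT q hq
    have hle : (A q).card ≤ (T q).card := by omega
    refine le_trans (le_of_eq ?_) ((hM4 X ρ Ch hCh p hp0 hp1 hp k q.1 q.2 ((mem_fam _ _ _ _ _).1 hq).1 hk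
      (A q) (T q) (hAT q hq) (hav q hq) hle).trans ?_)
    · refine Finset.sum_congr ?_ fun _ _ => rfl
      congr
    · refine mul_le_mul_right ?_ _
      refine ENNReal.ofReal_le_ofReal ?_
      refine mul_le_mul_of_nonneg_left ?_ (inv_nonneg.2 hpos.le)
      rw [hE]
      refine Real.exp_le_exp.2 (neg_le_neg ?_)
      rw [hcA, div_le_div_iff₀ (by positivity) (by positivity)]
      have e1 : (t : ℝ) ≤ (T q).card := by exact_mod_cast hcT
      have e2 : (2 * m : ℝ) ≤ t := by exact_mod_cast hmt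
      have e3 : (0 : ℝ) ≤ p * m := by positivity
      have e4 : (t : ℝ) ≤ 2 * ((T q).card - m) := by linarith
      have e5 : p * m * t ≤ p * m * (2 * ((T q).card - m)) := mul_le_mul_of_nonneg_left e4 e3
      nlinarith [e5, hX]
  calc ∑ σ ∈ pairings X, WM ρ {w | ∃ π : ℕ → V, π 0 = u ∧ Pth vt σ k π ∧
      (∀ i ≤ k, π i ∈ C i) ∧ ∀ x, vt x = π k → vt (σ x) ∈ Cn → (∀ i ≤ k, vt (σ x) ≠ π i) →
        w s(x, σ x) ∉ Ch}
      ≤ ∑ σ ∈ pairings X, ∑ q ∈ Fam vt u k C, if ∀ i, σ (q.1 i) = q.2 i then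
          WM ρ {w | ∀ x ∈ A q, σ x ∈ T q → w s(x, σ x) ∉ Ch} else 0 := Finset.sum_le_sum h1
    _ = ∑ q ∈ Fam vt u k C, ∑ σ ∈ pairings X, if ∀ i, σ (q.1 i) = q.2 i then
          WM ρ {w | ∀ x ∈ A q, σ x ∈ T q → w s(x, σ x) ∉ Ch} else 0 := Finset.sum_comm
    _ ≤ ∑ q ∈ Fam vt u k C, (pairings X).card * ENNReal.ofReal (P⁻¹ * E) := Finset.sum_le_sum h2
    _ = (pairings X).card * (((Fam vt u k C).card : ℝ≥0∞) * ENNReal.ofReal (P⁻¹ * E)) := by
        rw [Finset.sum_const, nsmul_eq_mul]; ring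
    _ ≤ _ := by
        refine mul_le_mul_right ?_ _
        rw [← ENNReal.ofReal_natCast, ← ENNReal.ofReal_mul (Nat.cast_nonneg _)]
        refine ENNReal.ofReal_le_ofReal ?_
        have e1 := card_fam vt u k C hi hdeg hhi
        have e2 : ∏ r ∈ Finset.range k, (hi r * Fintype.card X / ((Fintype.card X : ℝ) - 2 * r - 1)) =
            (∏ r ∈ Finset.range k, (hi r * Fintype.card X)) * P⁻¹ := by
          rw [Finset.prod_div_distrib, hP, div_eq_mul_inv]
        rw [e2, ← mul_assoc]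
        refine mul_le_mul_of_nonneg_right ?_ (Real.exp_pos _).le
        exact mul_le_mul_of_nonneg_right e1 (inv_nonneg.2 hpos.le)

end Pool.Agent.Helper92.CP
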