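import Pool.Agent.Helper20.CP.Spec

/-!
# CP, part FM: expected number of paths with prescribed classes of vertices
-/

set_option autoImplicit false

open MeasureTheory ProbabilityTheory Filter Topology
open scoped ENNReal

namespace Pool.Agent.Helper92.CP

open Pool.Agent.Helper20.CP

/-- The half-edges of a path. -/
lemma pth_halfedges {X V : Type} [Fintype X] (vt : X → V) (σ : Equiv.Perm X) (hσ : σ ∈ pairings X)
    (k : ℕ) (π : ℕ → V) (hp : Pth vt σ k π) :
    ∃ h : Fin k → X, DJ h (fun i => σ (h i)) ∧ (∀ i : Fin k, vt (h i) = π i) ∧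
      ∀ i : Fin k, vt (σ (h i)) = π (i + 1) := by
  classical
  obtain ⟨-, hinv, -⟩ := Finset.mem_filter.1 hσ
  have h1 : ∀ i : Fin k, ∃ x, vt x = π i ∧ vt (σ x) = π (i + 1) := fun i => hp.1 i i.2
  choose h hh hg using h1
  refine ⟨h, ⟨?_, ?_, ?_⟩, hh, hg⟩
  · intro i j hij
    have : π i = π j := by rw [← hh i, ← hh j, hij]
    exact Fin.ext (hp.2 _ i.2.le _ j.2.le this)
  · intro i j hij
    have : π (i + 1) = π (j + 1) := by rw [← hg i, ← hg j]; exact congrArg vt hij
    have := hp.2 _ i.2 _ j.2 this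
    exact Fin.ext (by omega)
  · intro i j hij
    have e1 : π i = π (j + 1) := by rw [← hh i, ← hg j, hij]
    have e2 : (i : ℕ) = j + 1 := hp.2 _ i.2.le _ j.2 e1
    have e3 : σ (h i) = h j := by rw [hij, hinv]
    have e4 : π (i + 1) = π j := by rw [← hg i, ← hh j, e3]
    have e5 : (i : ℕ) + 1 = j := hp.2 _ i.2 _ j.2.le e4
    omega

/-- The number of pairings which contain given disjoint pairs. -/
lemma count_pairs (hM4 : S_M4) {X : Type} [Fintype X] [DecidableEq X] {k : ℕ} (h g : Fin k → X)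
    (hd : DJ h g) (hk : 2 * k < Fintype.card X) :
    ∑ σ ∈ pairings X, ind (∀ i, σ (h i) = g i) ≤
      (pairings X).card *
        ENNReal.ofReal ((∏ r ∈ Finset.range k, ((Fintype.card X : ℝ) - 2 * r - 1))⁻¹) := by
  classical
  have := hM4 X (Measure.dirac ((0 : ℝ), (0 : ℝ))) ∅ MeasurableSet.empty 0 le_rfl zero_le_one (by simp)
    k h g hd hk ∅ ∅ (by simp) (by simp) (by simp)
  simp only [Finset.notMem_empty, false_imp_iff, implies_true, Set.ofPred_true, Finset.card_empty,
    Nat.cast_zero, mul_zero, zero_mul, zero_div, neg_zero, Real.exp_zero, mul_one] at this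
  refine le_trans (le_of_eq ?_) this
  rw [Finset.sum_filter]
  refine Finset.sum_congr rfl fun σ _ => ?_
  unfold ind
  have e : (WM (Measure.dirac ((0 : ℝ), (0 : ℝ))) : Measure (Sym2 X → ℝ × ℝ)) Set.univ = 1 := by
    unfold WM
    exact measure_univ
  by_cases h0 : ∀ i, σ (h i) = g i
  · rw [if_pos h0, if_pos h0, e]
  · rw [if_neg h0, if_neg h0]

lemma card_pairs {X V : Type} [Fintype X] (vt : X → V) (D : Finset V) :
    by classical exact
    ((Finset.univ.filter fun q : X × X => vt q.1 = vt q.2 ∧ vt q.1 ∈ D).card) =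
      ∑ v ∈ D, dg vt v ^ 2 := by
  classical
  rw [Finset.card_eq_sum_card_fiberwise (f := fun q : X × X => vt q.1) (t := D)
    (fun q hq => (Finset.mem_filter.1 hq).2.2)]
  refine Finset.sum_congr rfl fun v hv => ?_
  unfold dg
  rw [sq, ← Finset.card_product]
  congr 1
  ext q
  simp only [Finset.mem_filter, Finset.mem_univ, true_and, Finset.mem_product]
  constructor
  · rintro ⟨⟨h1, h2⟩, h3⟩
    exact ⟨h3, by rw [← h1, h3]⟩
  · rintro ⟨h1, h2⟩
    exact ⟨⟨by rw [h1, h2], by rw [h1]; exact hv⟩, h1⟩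

lemma card_last {X V : Type} [Fintype X] (vt : X → V) (D : Finset V) :
    by classical exact
    ((Finset.univ.filter fun q : X => vt q ∈ D).card) = ∑ v ∈ D, dg vt v := by
  classical
  have hmaps : Set.MapsTo vt ((Finset.univ.filter fun q : X => vt q ∈ D : Finset X) : Set X) (D : Set V) :=
    fun q hq => (Finset.mem_filter.1 (Finset.mem_coe.1 hq)).2
  rw [Finset.card_eq_sum_card_fiberwise hmaps]
  refine Finset.sum_congr rfl fun v hv => ?_
  unfold dg
  congr 1
  ext q
  simp only [Finset.mem_filter, Finset.mem_univ, true_and]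
  constructor
  · rintro ⟨-, h3⟩; exact h3
  · rintro h; exact ⟨by rw [h]; exact hv, h⟩

/-- division by the number of pairings -/
lemma avg_le {X : Type} [Fintype X] (F : Equiv.Perm X → ℝ≥0∞) (B : ℝ≥0∞)
    (h : ∑ σ ∈ pairings X, F σ ≤ (pairings X).card * B) : avg F ≤ B := by
  unfold avg
  rcases Nat.eq_zero_or_pos (pairings X).card with h0 | h0
  · have : pairings X = ∅ := Finset.card_eq_zero.1 h0
    rw [this]; simp
  · rw [ENNReal.div_le_iff_le_mul (Or.inl (by positivity)) (Or.inl (ENNReal.natCast_ne_top _))]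
    rw [mul_comm]; exact h

theorem mainFM (hM4 : S_M4) : S_FM := by
  intro X V _ _ vt u k C hk
  classical
  refine avg_le _ _ ?_
  set Fam : Finset ((Fin (k + 1) → X) × (Fin (k + 1) → X)) := Finset.univ.filter fun p =>
    DJ p.1 p.2 ∧ vt (p.1 0) = u ∧ (∀ i : Fin k, vt (p.2 i.castSucc) = vt (p.1 i.succ) ∧
      vt (p.2 i.castSucc) ∈ C (i + 1)) ∧ vt (p.2 (Fin.last k)) ∈ C (k + 1) with hFam
  -- pointwise bound
  have h1 : ∀ σ ∈ pairings X, ind (∃ π : ℕ → V, π 0 = u ∧ Pth vt σ (k + 1) π ∧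
      ∀ i, 1 ≤ i → i ≤ k + 1 → π i ∈ C i) ≤ ∑ p ∈ Fam, ind (∀ i, σ (p.1 i) = p.2 i) := by
    intro σ hσ
    by_cases h0 : ∃ π : ℕ → V, π 0 = u ∧ Pth vt σ (k + 1) π ∧ ∀ i, 1 ≤ i → i ≤ k + 1 → π i ∈ C i
    · obtain ⟨π, hπ0, hπ, hπC⟩ := h0
      obtain ⟨h, hd, hh, hg⟩ := pth_halfedges vt σ hσ _ π hπ
      have hmem : ((h, fun i => σ (h i)) : (Fin (k + 1) → X) × (Fin (k + 1) → X)) ∈ Fam := by
        rw [hFam, Finset.mem_filter]
        refine ⟨Finset.mem_univ _, hd, ?_, ?_, ?_⟩
        · rw [hh]; exact hπ0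
        · intro i
          refine ⟨?_, ?_⟩
          · show vt (σ (h i.castSucc)) = vt (h i.succ)
            rw [hg, hh]; simp
          · show vt (σ (h i.castSucc)) ∈ C (i + 1)
            rw [hg]
            have := hπC (i + 1) (by omega) (by omega)
            simpa using this
        · show vt (σ (h (Fin.last k))) ∈ C (k + 1)
          rw [hg]
          have := hπC (k + 1) (by omega) le_rfl
          simpa using this
      have h2 : ind (∀ i, σ (((h, fun i => σ (h i)) : (Fin (k + 1) → X) × (Fin (k + 1) → X)).1 i) =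
          ((h, fun i => σ (h i)) : (Fin (k + 1) → X) × (Fin (k + 1) → X)).2 i) = 1 := by
        unfold ind; rw [if_pos]; intro i; rfl
      calc ind _ ≤ 1 := by unfold ind; split_ifs <;> simp
        _ = ind (∀ i, σ (((h, fun i => σ (h i)) : (Fin (k + 1) → X) × (Fin (k + 1) → X)).1 i) =
          ((h, fun i => σ (h i)) : (Fin (k + 1) → X) × (Fin (k + 1) → X)).2 i) := h2.symm
        _ ≤ _ := Finset.single_le_sum (f := fun p : (Fin (k + 1) → X) × (Fin (k + 1) → X) =>
            ind (∀ i, σ (p.1 i) = p.2 i)) (fun _ _ => zero_le) hmem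
    · unfold ind; rw [if_neg h0]; exact zero_le
  -- the number of families
  have hcard : Fam.card ≤ dg vt u * (∏ i ∈ Finset.range k, ∑ v ∈ C (i + 1), dg vt v ^ 2) *
      ∑ v ∈ C (k + 1), dg vt v := by
    have e1 : (∏ i ∈ Finset.range k, ∑ v ∈ C (i + 1), dg vt v ^ 2) =
        (Fintype.piFinset fun i : Fin k => Finset.univ.filter fun q : X × X =>
          vt q.1 = vt q.2 ∧ vt q.1 ∈ C (i + 1)).card := by
      rw [Fintype.card_piFinset, Finset.prod_range]
      exact Finset.prod_congr rfl fun i _ => (card_pairs vt (C (i + 1))).symm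
    rw [e1, ← card_last vt (C (k + 1))]
    unfold dg
    rw [mul_assoc, ← Finset.card_product, ← Finset.card_product]
    refine Finset.card_le_card_of_injOn (fun p => (p.1 0, fun i : Fin k => (p.2 i.castSucc, p.1 i.succ),
      p.2 (Fin.last k))) ?_ ?_
    · intro p hp
      rw [hFam, Finset.mem_coe, Finset.mem_filter] at hp
      obtain ⟨-, -, h2, h3, h4⟩ := hp
      simp only [Finset.coe_product, Set.mem_prod, Finset.mem_coe, Finset.mem_filter, Finset.mem_univ,
        true_and, Fintype.mem_piFinset]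
      exact ⟨h2, fun i => h3 i, h4⟩
    · intro p _ q _ hpq
      simp only [Prod.mk.injEq] at hpq
      obtain ⟨h2, h3, h4⟩ := hpq
      have h5 : ∀ i : Fin k, p.2 i.castSucc = q.2 i.castSucc ∧ p.1 i.succ = q.1 i.succ := by
        intro i
        have := congrFun h3 i
        simpa using this
      refine Prod.ext ?_ ?_
      · funext i
        refine Fin.cases ?_ (fun i => ?_) i
        · exact h2
        · exact (h5 i).2
      · funext i
        refine Fin.lastCases ?_ (fun i => ?_) i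
        · exact h4
        · exact (h5 i).1
  -- positivity of the denominators
  have hpos : 0 < ∏ r ∈ Finset.range (k + 1), ((Fintype.card X : ℝ) - 2 * r - 1) := by
    refine Finset.prod_pos fun r hr => ?_
    have h2 : r < k + 1 := Finset.mem_range.1 hr
    have h3 : 2 * r + 1 < Fintype.card X := by omega
    have h4 : (2 * r + 1 : ℝ) < Fintype.card X := by exact_mod_cast h3
    linarith
  calc ∑ σ ∈ pairings X, ind (∃ π : ℕ → V, π 0 = u ∧ Pth vt σ (k + 1) π ∧
        ∀ i, 1 ≤ i → i ≤ k + 1 → π i ∈ C i)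
      ≤ ∑ σ ∈ pairings X, ∑ p ∈ Fam, ind (∀ i, σ (p.1 i) = p.2 i) := Finset.sum_le_sum h1
    _ = ∑ p ∈ Fam, ∑ σ ∈ pairings X, ind (∀ i, σ (p.1 i) = p.2 i) := Finset.sum_comm
    _ ≤ ∑ p ∈ Fam, (pairings X).card *
        ENNReal.ofReal ((∏ r ∈ Finset.range (k + 1), ((Fintype.card X : ℝ) - 2 * r - 1))⁻¹) := by
        refine Finset.sum_le_sum fun p hp => ?_
        exact count_pairs hM4 p.1 p.2 (Finset.mem_filter.1 hp).2.1 hk
    _ = (pairings X).card * ((Fam.card : ℝ≥0∞) *
        ENNReal.ofReal ((∏ r ∈ Finset.range (k + 1), ((Fintype.card X : ℝ) - 2 * r - 1))⁻¹)) := by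
        rw [Finset.sum_const, nsmul_eq_mul]; ring
    _ ≤ _ := by
        refine mul_le_mul_right ?_ _
        rw [div_eq_mul_inv, ENNReal.ofReal_mul (by positivity)]
        refine mul_le_mul_left ?_ _
        rw [← ENNReal.ofReal_natCast]
        refine ENNReal.ofReal_le_ofReal ?_
        exact_mod_cast hcard

end Pool.Agent.Helper92.CP
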